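import Pool.Agent.N527.FD.Main

/-!
# The integers whose `5x+1` orbit is seen to be periodic within a logarithmic number of steps

The orbit of `n` is eventually periodic if and only if `T₅^i(n) = T₅^j(n)` for some `i < j`. We count
the integers `n ≤ x` for which this happens with `j ≤ A log x`, and those for which it happens with
`j ≤ A log n`. There is a constant `κ` such that for every `A ≥ κ` both sets have the fractional
dimension `η = 0.6509…`, `2^η = 1 + 5^(η - 1)`, whatever cycles the map has; for
`1 / log 2 < A ≤ κ` the second set has the fractional dimension `A (H(r) - r log 5)`,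
`r = (log 2 - 1 / A) / log 5`, `H` the entropy function.

The upper bounds use the theorem of Ridout: the smallest element of a cycle of period `P` is at most
`C exp (δ P)`, for every `δ > 0`.
-/

set_option autoImplicit false

open Filter Topology

namespace Pool.Agent.Results.MP_d7ac36_nt.PeriodicWithinLogTime

/-- the `5x+1` map -/
def T5 (n : ℤ) : ℤ := if n % 2 = 0 then n / 2 else (5 * n + 1) / 2

/-- the orbit of `n` is seen to be periodic within `L` steps: `T₅^i(n) = T₅^j(n)` for some integers
`0 ≤ i < j ≤ L` -/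
def PeriodicWithin (n : ℤ) (L : ℝ) : Prop :=
  ∃ i j : ℕ, i < j ∧ (j : ℝ) ≤ L ∧ T5^[i] n = T5^[j] n

/-- the number of the integers `1 ≤ n ≤ x` whose orbit is seen to be periodic within `A log x`
steps -/
noncomputable def Q (A x : ℝ) : ℕ :=
  {n : ℤ | 1 ≤ n ∧ (n : ℝ) ≤ x ∧ PeriodicWithin n (A * Real.log x)}.ncard

/-- the number of the integers `1 ≤ n ≤ x` whose orbit is seen to be periodic within `A log n`
steps -/
noncomputable def R (A x : ℝ) : ℕ :=
  {n : ℤ | 1 ≤ n ∧ (n : ℝ) ≤ x ∧ PeriodicWithin n (A * Real.log n)}.ncard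

/-- the critical constant `κ` -/
noncomputable def kappa (η : ℝ) : ℝ := 1 / (Real.log 2 - (1 - (2 : ℝ) ^ (-η)) * Real.log 5)

/-- the exponent `A (H(r) - r log 5)`, `r = (log 2 - 1 / A) / log 5`, where
`H(r) = - r log r - (1 - r) log (1 - r)` -/
noncomputable def level (A : ℝ) : ℝ :=
  A * (Real.binEntropy ((Real.log 2 - 1 / A) / Real.log 5) -
    (Real.log 2 - 1 / A) / Real.log 5 * Real.log 5)

theorem finite_iff (n : ℤ) :
    (Set.range fun k : ℕ => T5^[k] n).Finite ↔ ∃ L : ℝ, PeriodicWithin n L := by
  constructor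
  · intro h
    have hni : ¬ Function.Injective (fun k : ℕ => T5^[k] n) := by
      intro hinj
      exact Set.infinite_range_of_injective hinj h
    rw [Function.not_injective_iff] at hni
    obtain ⟨a, b, hab, hne⟩ := hni
    rcases lt_or_gt_of_ne hne with hlt | hlt
    · exact ⟨b, a, b, hlt, le_rfl, hab⟩
    · exact ⟨a, b, a, hlt, le_rfl, hab.symm⟩
  · rintro ⟨L, i, j, hij, -, he⟩
    refine ((Finset.range j).image fun k => T5^[k] n).finite_toSet.subset ?_
    rintro _ ⟨k, rfl⟩
    rw [Finset.mem_coe, Finset.mem_image]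
    by_cases hk : k < j
    · exact ⟨k, Finset.mem_range.mpr hk, rfl⟩
    · have hP : 0 < j - i := by omega
      have hz : Function.IsPeriodicPt T5 (j - i) (T5^[i] n) := by
        change T5^[j - i] (T5^[i] n) = T5^[i] n
        rw [← Function.iterate_add_apply, Nat.sub_add_cancel hij.le]
        exact he.symm
      refine ⟨(k - i) % (j - i) + i, Finset.mem_range.mpr ?_, ?_⟩
      · have := Nat.mod_lt (k - i) hP
        omega
      · change T5^[(k - i) % (j - i) + i] n = T5^[k] n
        rw [Function.iterate_add_apply, hz.iterate_mod_apply, ← Function.iterate_add_apply]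
        congr 1
        omega

/-- The orbit of `n` takes only finitely many values if and only if it is seen to be periodic within
`L` steps for some `L`. There is `η`, `0.6509 < η < 0.65095`, `2^η = 1 + 5^(η - 1)`, such that
`log Q(A, x) / log x` and `log R(A, x) / log x` tend to `η` as `x → ∞` for every `A ≥ κ(η)`, and
`log R(A, x) / log x` tends to `A (H(r) - r log 5)`, `r = (log 2 - 1 / A) / log 5`, for
`1 / log 2 < A ≤ κ(η)`. -/
theorem result :
    (∀ n : ℤ, (Set.range fun k : ℕ => T5^[k] n).Finite ↔ ∃ L : ℝ, PeriodicWithin n L) ∧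
    ∃ η : ℝ, 0.6509 < η ∧ η < 0.65095 ∧ (2 : ℝ) ^ η = 1 + 5 ^ (η - 1) ∧
      (∀ A : ℝ, kappa η ≤ A →
        Tendsto (fun x : ℝ => Real.log (Q A x) / Real.log x) atTop (𝓝 η) ∧
        Tendsto (fun x : ℝ => Real.log (R A x) / Real.log x) atTop (𝓝 η)) ∧
      ∀ A : ℝ, 1 / Real.log 2 < A → A ≤ kappa η →
        Tendsto (fun x : ℝ => Real.log (R A x) / Real.log x) atTop (𝓝 (level A)) := by
  refine ⟨finite_iff, ?_⟩
  obtain ⟨η, ⟨h1, h2, h3⟩, h4, h5⟩ := Pool.Agent.N527.FD.main
  exact ⟨η, h1, h2, h3, h4, h5⟩

end Pool.Agent.Results.MP_d7ac36_nt.PeriodicWithinLogTime
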